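import Pool.Agent.TH778.SA.Main
import Pool.Agent.Y874.SS.Aron

/-!
# Real and Aronszajn strongly surjective linear orders: both kinds in one order, and many types

In ZFC: if `R` is an uncountable real strongly surjective linear order and `A` a strongly
surjective Aronszajn line, then there are `2 ^ |R × A|` pairwise non-isomorphic strongly surjective
linear orders which contain a copy of `R` and a copy of `A`; and there are `2 ^ |A|` pairwise
non-isomorphic strongly surjective Aronszajn lines of the size of `A`.  The hypothesis holds in the
model obtained by forcing Martin's axiom.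
-/

set_option autoImplicit false

namespace Pool.Agent.Results.MP_5db220_lc.OneOrderBothKinds

open Cardinal Pool.Agent.Helper669.Forcing Pool.Agent.W684 Pool.Agent.W684.FM Pool.Agent.TH778.SA

/-- `L` maps onto `K` by a map which is monotone in the weak sense. -/
def MapsOnto (L K : Type) [LinearOrder L] [LinearOrder K] : Prop :=
  ∃ f : L → K, Monotone f ∧ Function.Surjective f

/-- The following holds for the linear orders `R` and `A`:
(a) the lexicographic product of `R` and `A` is strongly surjective; there are strongly surjective
linear orders `M S`, one for each subset `S` of `R × A`, of the cardinality of `R × A`, pairwise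
non-isomorphic, each containing a copy of `R` and a copy of `A`, any two of which map onto each
other and embed into each other;
(b) there are strongly surjective Aronszajn lines `N S`, one for each subset `S` of `A`, of the
cardinality of `A`, pairwise non-isomorphic, each containing a copy of `A`, any two of which map
onto each other and embed into each other. -/
def Rich (R A : Type) [LinearOrder R] [LinearOrder A] : Prop :=
  StronglySurjective (R ×ₗ A) ∧
  (∃ (M : Set (R × A) → Type) (_ : ∀ S, LinearOrder (M S)),
    (∀ S, StronglySurjective (M S) ∧ #(M S) = #(R × A) ∧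
      Nonempty (R ↪o M S) ∧ Nonempty (A ↪o M S)) ∧
    (∀ S T, MapsOnto (M S) (M T) ∧ Nonempty (M S ↪o M T)) ∧
    ∀ S T, Nonempty (M S ≃o M T) → S = T) ∧
  ∃ (N : Set A → Type) (_ : ∀ S, LinearOrder (N S)),
    (∀ S, IsAronszajn (N S) ∧ StronglySurjective (N S) ∧ #(N S) = #A ∧ Nonempty (A ↪o N S)) ∧
    (∀ S T, MapsOnto (N S) (N T) ∧ Nonempty (N S ↪o N T)) ∧
    ∀ S T, Nonempty (N S ≃o N T) → S = T

/-- (1) Some preordered set `P` of forcing conditions forces that all cardinals are preserved, that
`ω₁` is preserved and that Martin's axiom for `ℵ₁` dense sets holds. (2) If Martin's axiom for `ℵ₁`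
dense sets holds then there are an uncountable real strongly surjective linear order `R` and a
strongly surjective Aronszajn line `A`. (3) `Rich R A` holds whenever `R` is an uncountable real
strongly surjective linear order and `A` is a strongly surjective Aronszajn line. (4) The form of
Martin's axiom in (1) and (2) is equivalent to the usual one. -/
theorem result :
    (∃ (P : Type) (_ : Preorder P), Nonempty P ∧ ∀ p : P,
      p ∈ CardinalsPreserved.{0, 0} P ∧ p ∈ OmegaOnePreserved P ∧ p ∈ MartinHolds P Om1) ∧
    (MartinFor Om1 →
      ∃ (R A : Type) (_ : LinearOrder R) (_ : LinearOrder A),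
        Uncountable R ∧ IsReal R ∧ StronglySurjective R ∧
        IsAronszajn A ∧ StronglySurjective A ∧ Rich R A) ∧
    (∀ (R A : Type) [LinearOrder R] [LinearOrder A],
      Uncountable R → IsReal R → StronglySurjective R →
      IsAronszajn A → StronglySurjective A → Rich R A) ∧
    (MartinFor Om1 ↔ MartinAxiomAleph1) := by
  have main : ∀ (R A : Type) [LinearOrder R] [LinearOrder A],
      Uncountable R → IsReal R → StronglySurjective R →
      IsAronszajn A → StronglySurjective A → Rich R A := by
    intro R A _ _ h1 h2 h3 h4 h5
    have : Uncountable A := h4.1
    exact ⟨Y874.SS.StronglySurjective.prod h3 h5, Y874.SS.main_both R A h3 h5,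
      Y874.SS.main_aron A h4 h5⟩
  refine ⟨exists_forcing Om1, fun h => ?_, main, martinFor_om1_iff⟩
  obtain ⟨R, i, h1, h2, h3⟩ := real (martinFor_om1_iff.1 h)
  exact ⟨R, LL, i, inferInstance, h1, h2, h3, aronszajn, strongly (martinFor_om1_iff.1 h),
    main R LL h1 h2 h3 aronszajn (strongly (martinFor_om1_iff.1 h))⟩

end Pool.Agent.Results.MP_5db220_lc.OneOrderBothKinds
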